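import Pool.Agent.P.MP_638e8a_ag_H5.Main

/-!
Chow-Kuenneth decompositions for fibre products of any number of fibred surfaces with section over
a curve, in any characteristic and for any Weil cohomology.
-/

open CategoryTheory Pool.Agent.P.MP_90138e_ag Pool.Agent.P.MP_638e8a_ag.Cyc

universe u v w

namespace Pool.Agent.Results.MP_638e8a_ag.FibreProductCK

theorem result {k : Type u} [Field k] [IsAlgClosed k] {K : Type v} [Field K] [CharZero K]
    (D : CohData.{u, v, w} k K) (hD : IsWeil D) {ι : Type} (F : FP.Sys k ι) (hB : F.B.dim = 1)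
    (A : Finset ι) (h : ∀ A' ⊆ A, A'.Nonempty →
      (∃ ζ : D.H (F.X A'), HardLefschetz (D.deg (F.X A')) (F.X A').dim ζ ∧
        ζ ∈ F.Sp D (fun G => D.deg G 1 = ⊥) A') ∨
      ∀ i ≠ (F.X A').dim, Motivated D (F.X A') i) :
    HasCK D (F.X A) := by
  classical
  exact FP.hasCK_fibre hD hB A h

end Pool.Agent.Results.MP_638e8a_ag.FibreProductCK
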