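import Pool.Agent.P.MP_638e8a_ag_H67.Final
import Pool.Agent.P.MP_638e8a_ag_H67.Short

/-!
Chow-Kuenneth decompositions ascend along systems of fibrations `p j : X → B j`.

The pairs of cycles `(η a, ζ a)` have nonzero degree on the fibres of `p (b a)`, they are
triangular modulo correspondences through products of curves, and below the middle degree the
cohomology of `X` is generated by a part motivated by curves and the classes `η a · p^* t`, with `t`
invisible to curves. The bases are arbitrary varieties with a Chow-Kuenneth decomposition; no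
finite-dimensionality of their motives is used. The theorem `H67.hasCK_geometric` derives the
triangularity from supports and dimensions.
-/

open CategoryTheory CartesianMonoidalCategory Pool.Agent.P.MP_90138e_ag
  Pool.Agent.P.MP_638e8a_ag.Cyc Pool.Agent.P.MP_638e8a_ag.H67

universe u v w

namespace Pool.Agent.Results.MP_638e8a_ag.InheritCK

theorem result {k : Type u} [Field k] [IsAlgClosed k] {K : Type v} [Field K] [CharZero K]
    (D : CohData.{u, v, w} k K) (hD : IsWeil D) (X : SmProj k) (ξ : D.H X) (hξ : LefClass D X ξ)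
    (m s : ℕ) (B : Fin m → SmProj k) (p : ∀ j, X.X ⟶ (B j).X) (hB : ∀ j, HasCK D (B j))
    (b : Fin s → Fin m) (η ζ : Fin s → X.X.left →₀ ℚ)
    (hc : ∀ a, ∃ c c', HasCodim (η a) c ∧ HasCodim (ζ a) c' ∧ c + c' + (B (b a)).dim = X.dim)
    (hdeg : ∀ a, ¬ PushesTo (D.pull (p (b a))) (D.tr X) (D.tr (B (b a)))
      (cls (K := K) (D.cl X) (η a) * cls (K := K) (D.cl X) (ζ a)) 1 0)
    (htri : ∀ a a', a < a' → ∃ γ, IsMul X (η a) (ζ a') γ ∧
      MapsInto (pushZ (lift (p (b a)) (p (b a'))).left) γ (ViaCurves (B (b a)) (B (b a'))))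
    (hswap : ∀ a, ∃ a', b a' = b a ∧ η a' = ζ a ∧ ζ a' = η a)
    (hH : ∀ i < X.dim, ∃ U, MotSub D X U ∧ Spans (D.deg X i) U
      (fun a => cls (K := K) (D.cl X) (η a)) (fun a => D.pull (p (b a)))
      fun a => Transc D (B (b a))) :
    HasCK D X :=
  Pool.Agent.P.MP_638e8a_ag.H67.hasCK_final hD X hξ B p hB b η ζ hc
    (fun a => by
      by_contra h
      exact hdeg a fun y => by
        rw [zero_mul, map_zero, mul_zero]
        exact not_not.1 fun e => h ⟨y, e⟩)
    htri hswap fun i hi => (hH i hi).imp fun _ h => ⟨h.2.1, h.1, h.2.2⟩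

end Pool.Agent.Results.MP_638e8a_ag.InheritCK
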