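import Pool.Agent.P.MP_638e8a_ag.K.Final

/-!
Chow-Kuenneth decompositions for the class of varieties generated by those whose cohomology below
the middle degree is motivated by curves (curves, surfaces, abelian varieties, complete
intersections) under products and morphisms of Lefschetz type (ample complete intersections,
ample cyclic covers, flag bundles), in every characteristic. The Chow rings are constructed.
-/

open Pool.Agent.P.MP_638e8a_ag.H58 Pool.Agent.P.MP_638e8a_ag.K

universe u v w

namespace Pool.Agent.Results.MP_638e8a_ag.KleimanCK

theorem result {k : Type u} [Field k] [IsAlgClosed k] {K : Type v} [Field K] [CharZero K]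
    (W : Weil.{u, v, w} (chow k) K) (M : Marked (chow k)) (h : Kleiman W M) : W.HasCK M.X :=
  h.hasCK (Classical.choose_spec (exists_standard k))

end Pool.Agent.Results.MP_638e8a_ag.KleimanCK
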